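import Pool.Agent.Q146.FVD.Net

/-!
# Almost nonshortcutting fillings of the round sphere

Let `M` be a filling of `S^d`, compact or not, whose boundary map `bd : S^d → M` shortens the distances
of the sphere by at most `η`: `dist (bd x) (bd y) ≥ angle x y - η`. Then the volume of `M`, and of the
part of `M` near the boundary, is at least
`vol(B^(d+1)) ((∫₀^π sin^d - η) / ∫₀^π sin^(d+1))^(d+1)`; for `η = 0` this is the known bound for
nonshortcutting fillings. In particular it is enough to know the inequality
`dist (bd p) (bd q) ≥ angle p q` for the finitely many points `p`, `q` of a `δ`-net of the sphere.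

Proof: the extended distance functions now have the defect `η` on the boundary, so the map
`q ↦ -∫ f_x(q) x dx` to `ℝ^(d+1)` is only close to a multiple of the inclusion. It is changed near the
boundary into a map which is a multiple of the inclusion, without changing the points that are mapped
to a smaller ball.
-/

set_option autoImplicit false

open MeasureTheory Metric Set InnerProductGeometry

namespace Pool.Agent.Results.MP_aeade1_gt.AlmostNonshortcutting

open Pool.Agent.H241R3.FV Pool.Agent.Q146.FVC Pool.Agent.Q146.FVD

/-- Let `d ≥ 1`.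
(1) Compact fillings with defect `η`.
(2) The part `{h > 0}` of a filling with defect `η`, compact or not.
(3) The same if the distances are compared on a `δ`-net `P` only, with a `K`-Lipschitz boundary map;
then `η = 2 (1 + K) δ`.
(4) In particular, if the closed collars of width less than `π / 2` are compact, the points at distance
less than `π / 2` from the boundary have volume at least `kapD d (2 (1 + K) δ)`. -/
theorem result (d : ℕ) (hd : 1 ≤ d) :
    (∀ (M : Type) [MetricSpace M] [CompactSpace M] (S : Fill d M) (η : ℝ),
      Continuous S.bd → Function.Injective S.bd → S.NoRetraction →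
      η ≤ ∫ t in (0 : ℝ)..Real.pi, Real.sin t ^ d →
      (∀ x y : Sph (d + 1),
        angle (x : E (d + 1)) (y : E (d + 1)) - η ≤ dist (S.bd x) (S.bd y)) →
      kapD d η ≤ S.vol) ∧
    (∀ (M : Type) [MetricSpace M] (S : Fill d M) (h : M → ℝ) (η : ℝ),
      Continuous S.bd → Function.Injective S.bd → S.NoRetraction →
      η ≤ ∫ t in (0 : ℝ)..Real.pi, Real.sin t ^ d →
      (∀ x y : Sph (d + 1),
        angle (x : E (d + 1)) (y : E (d + 1)) - η ≤ dist (S.bd x) (S.bd y)) →
      LipschitzWith 1 h → (∀ x, 0 < h (S.bd x)) → (∀ δ : ℝ, 0 < δ → IsCompact {q | δ ≤ h q}) →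
      (∀ x y : Sph (d + 1),
        angle (x : E (d + 1)) (y : E (d + 1)) - η ≤ h (S.bd x) + h (S.bd y)) →
      kapD d η ≤ posVol S h) ∧
    (∀ (M : Type) [MetricSpace M] (S : Fill d M) (h : M → ℝ) (P : Set (Sph (d + 1))) (K δ : ℝ),
      Bdry S K → Net P δ → LongOn S P → NearHeight S h P →
      2 * (1 + K) * δ ≤ ∫ t in (0 : ℝ)..Real.pi, Real.sin t ^ d →
      kapD d (2 * (1 + K) * δ) ≤ posVol S h) ∧
    (∀ (M : Type) [MetricSpace M] (S : Fill d M) (P : Set (Sph (d + 1))) (K δ : ℝ),
      Bdry S K → Net P δ → LongOn S P →
      (∀ r : ℝ, r < Real.pi / 2 → IsCompact {q : M | infDist q (range S.bd) ≤ r}) →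
      2 * (1 + K) * δ ≤ ∫ t in (0 : ℝ)..Real.pi, Real.sin t ^ d →
      kapD d (2 * (1 + K) * δ) ≤
        ∑' i, ∫⁻ p in (S.chart i).D ∩
            {p | infDist ((S.chart i).map p) (range S.bd) < Real.pi / 2},
          ENNReal.ofReal √((S.chart i).G p).det) := by
  refine ⟨fun M _ _ S η hc hi hno hη h => vol_almost hd S hc hi hno hη h,
    fun M _ S h η hc hi hno hη hl lip pos cpt sum =>
      vol_almost_near hd S hc hi hno hη hl lip pos cpt sum,
    fun M _ S h P K δ hB hP hL hh hη =>
      vol_almost_near hd S hB.cont hB.inj hB.noRetraction hη (long_of_net hB hP hL) hh.lip hh.pos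
        hh.cpt (height_of_net hB hP hh),
    fun M _ S P K δ hB hP hL hc hη => ?_⟩
  have hD := height_depth S
  have hpos : ∀ x, depth S (S.bd x) = Real.pi / 2 := by
    intro x
    unfold depth
    rw [infDist_zero_of_mem (mem_range_self x), sub_zero]
  have hN : NearHeight S (depth S) P := by
    refine ⟨hD.lip, fun x => ?_, fun δ' hδ' => ?_, fun x _ y _ => hD.sum x y⟩
    · rw [hpos x]; positivity
    · have h2 := hc (Real.pi / 2 - δ') (by linarith)
      have e : {q : M | δ' ≤ depth S q} = {q : M | infDist q (range S.bd) ≤ Real.pi / 2 - δ'} := by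
        ext q
        change δ' ≤ Real.pi / 2 - infDist q (range S.bd) ↔
          infDist q (range S.bd) ≤ Real.pi / 2 - δ'
        constructor <;> intro h3 <;> linarith
      rw [e]; exact h2
  have h1 := vol_almost_near hd S hB.cont hB.inj hB.noRetraction hη (long_of_net hB hP hL) hN.lip
    hN.pos hN.cpt (height_of_net hB hP hN)
  refine h1.trans (le_of_eq ?_)
  unfold posVol
  refine tsum_congr fun i => ?_
  have e : {p | 0 < depth S ((S.chart i).map p)} =
      {p | infDist ((S.chart i).map p) (range S.bd) < Real.pi / 2} := by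
    ext p
    change 0 < Real.pi / 2 - infDist ((S.chart i).map p) (range S.bd) ↔
      infDist ((S.chart i).map p) (range S.bd) < Real.pi / 2
    constructor <;> intro h3 <;> linarith
  rw [e]

end Pool.Agent.Results.MP_aeade1_gt.AlmostNonshortcutting
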