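import Pool.Agent.Q146.FVC.Main

/-!
# Complete fillings of the round sphere and the part of a filling near the boundary

`M` is a nonshortcutting filling of `S^d`, compact or not, for example a complete Riemannian manifold
of dimension `d + 1` with boundary `S^d`, of any topology. Let `h` be a `1`-Lipschitz function on `M`
with `h (x) + h (y) ≥ angle x y` for all points `x`, `y` of the boundary, for example
`h = π / 2 - dist (·, ∂M)`. Then the volume of the set `{h > 0}` alone, for example of the set of the
points at distance less than `π / 2` from the boundary, is at least nine twentieths of the volume of the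
round hemisphere. More generally a lower bound `C` holds for the volumes of all compact fillings if and
only if it holds for the volumes of these sets in all fillings, compact or not; so the filling volume
inequality for compact fillings is equivalent to its collar form for complete fillings.

Proof: the set `{h ≤ 0}` is collapsed to a point, with the metric `min (dist p q) (h p + h q)`; the far
faces of the triangulations are joined with this point.
-/

set_option autoImplicit false

open MeasureTheory Metric Set InnerProductGeometry

namespace Pool.Agent.Results.MP_aeade1_gt.CompleteFillings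

open Pool.Agent.H241R3.FV Pool.Agent.Q146.FVC

theorem posVol_le {d : ℕ} {M : Type} [MetricSpace M] (S : Fill d M) (h : M → ℝ) :
    posVol S h ≤ S.vol := by
  unfold posVol Fill.vol
  refine ENNReal.tsum_le_tsum fun i => ?_
  exact lintegral_mono_set inter_subset_left

/-- Let `d ≥ 1`.
(1) A number `C` is a lower bound for the volumes of all compact nonshortcutting fillings of `S^d` if
and only if it is a lower bound for the volumes of the sets `{h > 0}` in all nonshortcutting fillings,
compact or not, for all functions `h` as above.
(2) The volume of `{h > 0}` is at least nine twentieths of the volume of the round hemisphere, and at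
least `vol(B^(d+1)) (∫₀^π sin^d / ∫₀^π sin^(d+1))^(d+1)`.
(3) This holds for compact fillings and all `1`-Lipschitz functions `h` with
`h (x) + h (y) ≥ angle x y` on the boundary.
(4) In a filling, compact or not, whose closed collars of width less than `π / 2` are compact, the set
of the points at distance less than `π / 2` from the boundary has volume at least nine twentieths of
the volume of the round hemisphere. -/
theorem result (d : ℕ) (hd : 1 ≤ d) :
    (∀ C : ENNReal,
      (∀ (M : Type) [MetricSpace M] [CompactSpace M] (S : Fill d M), S.NonShort →
        S.Triangulated → C ≤ S.vol) ↔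
      (∀ (M : Type) [MetricSpace M] (S : Fill d M) (h : M → ℝ), S.NonShort → Height S h →
        NearCompact S h → C ≤ posVol S h)) ∧
    (∀ (M : Type) [MetricSpace M] (S : Fill d M) (h : M → ℝ), S.NonShort → Height S h →
      NearCompact S h →
        ENNReal.ofReal (9 / 20) * hemi d ≤ posVol S h ∧ kap d ≤ posVol S h) ∧
    (∀ (M : Type) [MetricSpace M] [CompactSpace M] (S : Fill d M) (h : M → ℝ), S.NonShort →
      Height S h →
        (S.Triangulated → ENNReal.ofReal (9 / 20) * hemi d ≤ posVol S h) ∧
        (S.Triangulated ∨ S.NoRetraction → kap d ≤ posVol S h)) ∧
    (∀ (M : Type) [MetricSpace M] (S : Fill d M), S.NonShort →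
      (∀ r : ℝ, r < Real.pi / 2 → IsCompact {q : M | infDist q (range S.bd) ≤ r}) →
      (∀ ε : ℝ, 0 < ε →
        Nonempty (PTriang S.bd (fun q => Real.pi / 2 - infDist q (range S.bd)) ε)) →
      ENNReal.ofReal (9 / 20) * hemi d ≤
        ∑' i, ∫⁻ p in (S.chart i).D ∩
            {p | infDist ((S.chart i).map p) (range S.bd) < Real.pi / 2},
          ENNReal.ofReal √((S.chart i).G p).det) := by
  refine ⟨fun C => ⟨fun H M _ S h hS hh hc => reduce H hS hh hc, fun H M _ _ S hS hT => ?_⟩,
    fun M _ S h hS hh hc => ⟨reduce (nine hd) hS hh hc,
      reduce (fun M _ _ S hS hT => kapp hd M S hS (Or.inl hT)) hS hh hc⟩,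
    fun M _ _ S h hS hh => ⟨fun hT => reduce (nine hd) hS hh (nearCompact_of hh hT), ?_⟩,
    fun M _ S hS hc hT => ?_⟩
  · exact (H M S (depth S) hS (height_depth S) (nearCompact_of (height_depth S) hT)).trans
      (posVol_le S _)
  · rintro (hT | hR)
    · exact reduce (fun M _ _ S hS hT => kapp hd M S hS (Or.inl hT)) hS hh (nearCompact_of hh hT)
    · exact reduceNR (fun M _ _ S hS hT => kapp hd M S hS (Or.inr hT)) hS hh
        (fun δ _ => (isClosed_le continuous_const hh.lip.continuous).isCompact) hR
  · have h1 := reduce (nine hd) hS (height_depth S) (h := depth S)
      ⟨fun δ hδ => by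
        have h2 := hc (Real.pi / 2 - δ) (by linarith)
        have e : {q : M | δ ≤ depth S q} = {q : M | infDist q (range S.bd) ≤ Real.pi / 2 - δ} := by
          ext q
          change δ ≤ Real.pi / 2 - infDist q (range S.bd) ↔
            infDist q (range S.bd) ≤ Real.pi / 2 - δ
          constructor <;> intro h3 <;> linarith
        rw [e]; exact h2, hT⟩
    refine h1.trans (le_of_eq ?_)
    unfold posVol
    refine tsum_congr fun i => ?_
    have e : {p | 0 < depth S ((S.chart i).map p)} =
        {p | infDist ((S.chart i).map p) (range S.bd) < Real.pi / 2} := by
      ext p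
      change 0 < Real.pi / 2 - infDist ((S.chart i).map p) (range S.bd) ↔
        infDist ((S.chart i).map p) (range S.bd) < Real.pi / 2
      constructor <;> intro h3 <;> linarith
    rw [e]

end Pool.Agent.Results.MP_aeade1_gt.CompleteFillings
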