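import Pool.Agent.Q146.FVD.Holes

/-!
# Fillings of the round sphere with further boundary components

`M` is a Riemannian manifold, compact or not, with the boundary sphere `bd : S^d → M`, which is
nonshortcutting, and with further boundary components (holes). Those which meet the set `{h > 0}`,
for example the set of the points at distance less than `π / 2` from the boundary sphere, are finitely
many, with diameters at most `r j`; the others, and the ends of `M`, are arbitrary. Then
`vol {h > 0} + vol(B^(d+1)) (2 ∑ r_j / ∫₀^π sin^(d+1))^(d+1)` is at least the known lower bound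
`vol(B^(d+1)) (∫₀^π sin^d / ∫₀^π sin^(d+1))^(d+1)` for the volumes of compact fillings without holes.

Proof: the map `q ↦ -∫ f_x(q) x dx` to `ℝ^(d+1)` is Lipschitz with constant `2 vol(B^d)`, so it maps the
holes into balls, which are merged into disjoint balls whose radii have the sum `2 vol(B^d) ∑ r_j`; a
point of the ball `{|y| < l}` outside of these balls is in the image, since otherwise the map, changed
by collapsing the balls near the holes, would give a retraction which is constant on the holes.
-/

set_option autoImplicit false

open MeasureTheory Metric Set InnerProductGeometry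

namespace Pool.Agent.Results.MP_aeade1_gt.FillingsWithHoles

open Pool.Agent.H241R3.FV Pool.Agent.Q146.FVC Pool.Agent.Q146.FVD

/-- The volume of the part `{h > 0}` of a filling of `S^d` with finitely many holes of diameters at
most `r j` in this part. -/
theorem result (d : ℕ) (hd : 1 ≤ d) (M : Type) [MetricSpace M] (h : M → ℝ)
    (S : HoledFill d M h) (r : S.J → ℝ) (hS : S.Good r) :
    letI := S.fin
    volume (ball (0 : E (d + 1)) 1) * ENNReal.ofReal
        (((∫ t in (0 : ℝ)..Real.pi, Real.sin t ^ d) /
          ∫ t in (0 : ℝ)..Real.pi, Real.sin t ^ (d + 1)) ^ (d + 1)) ≤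
      S.posVol + volume (ball (0 : E (d + 1)) 1) * ENNReal.ofReal
        ((2 * (∑ j, r j) / ∫ t in (0 : ℝ)..Real.pi, Real.sin t ^ (d + 1)) ^ (d + 1)) :=
  holed_vol hd S r hS le_rfl

end Pool.Agent.Results.MP_aeade1_gt.FillingsWithHoles
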