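import Pool.Agent.Q146.FVD.Prof

/-!
# Locally nonshortcutting fillings of the round sphere and narrow collars

Let `M` be a filling of `S^d`, compact or not, in which the distances of the points of the boundary
sphere are preserved up to `ρ ≤ π` only: `dist (bd x) (bd y) ≥ min (angle x y) ρ`. Then the collar of
width `ρ / 2` of the boundary has volume at least
`vol(B^(d+1)) (∫₀^ρ sin^d / ∫₀^π sin^(d+1))^(d+1)`. For `ρ = π` this is the known bound for
nonshortcutting fillings; for `ρ = π - 2 s` it is smaller by `O(s^(d+1))` only. More generally `min (t, ρ)` may be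
replaced by any subadditive function of the angle.
-/

set_option autoImplicit false

open MeasureTheory Metric Set InnerProductGeometry

namespace Pool.Agent.Results.MP_aeade1_gt.LocallyNonshortcutting

open Pool.Agent.H241R3.FV Pool.Agent.Q146.FVC Pool.Agent.Q146.FVD

/-- Let `d ≥ 1`.
(1) If `dist (bd x) (bd y) ≥ min (angle x y) ρ` for all points `x`, `y` of the sphere, `0 < ρ ≤ π`, then
the set of the points at distance less than `ρ / 2` from the boundary sphere has volume at least
`vol(B^(d+1)) (∫₀^ρ sin^d / ∫₀^π sin^(d+1))^(d+1)`.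
(2) The same for the volume of `{h > 0}`, `h` any `1`-Lipschitz function with
`h (bd x) + h (bd y) ≥ F (angle x y)`, if `dist (bd x) (bd y) ≥ F (angle x y)`, with a nondecreasing
continuous subadditive function `F`. -/
theorem result (d : ℕ) (hd : 1 ≤ d) :
    (∀ (ρ : ℝ), 0 < ρ → ρ ≤ Real.pi → ∀ (M : Type) [MetricSpace M] (bd : Sph (d + 1) → M)
      (S : NearFill d M (fun q => ρ / 2 - infDist q (range bd))), S.bd = bd → S.NoRetraction →
      (∀ x y : Sph (d + 1), min (angle (x : E (d + 1)) (y : E (d + 1))) ρ ≤ dist (bd x) (bd y)) →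
      volume (ball (0 : E (d + 1)) 1) * ENNReal.ofReal
        (((∫ t in (0 : ℝ)..ρ, Real.sin t ^ d) /
          ∫ t in (0 : ℝ)..Real.pi, Real.sin t ^ (d + 1)) ^ (d + 1)) ≤ S.posVol) ∧
    (∀ (F : ℝ → ℝ), Profile F → ∀ (M : Type) [MetricSpace M] (h : M → ℝ) (S : NearFill d M h),
      LipschitzWith 1 h → S.NoRetraction →
      (∀ x y : Sph (d + 1),
        F (angle (x : E (d + 1)) (y : E (d + 1))) ≤ dist (S.bd x) (S.bd y)) →
      (∀ x y : Sph (d + 1),
        F (angle (x : E (d + 1)) (y : E (d + 1))) ≤ h (S.bd x) + h (S.bd y)) →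
      0 < mu F d →
      volume (ball (0 : E (d + 1)) 1) * ENNReal.ofReal
        ((mu F d / ∫ t in (0 : ℝ)..Real.pi, Real.sin t ^ (d + 1)) ^ (d + 1)) ≤ S.posVol) := by
  refine ⟨fun ρ hρ hρ' M _ bd S hb hno h1 => ?_, fun F hF M _ h S lip hno h1 h2 hmu =>
    vol_profile hF hd S lip hno h1 h2 hmu⟩
  have lip : LipschitzWith 1 (fun q => ρ / 2 - infDist q (range bd)) := by
    refine LipschitzWith.of_dist_le_mul fun p q => ?_
    rw [NNReal.coe_one, one_mul, Real.dist_eq]
    rw [sub_sub_sub_cancel_left, ← Real.dist_eq, dist_comm p q]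
    have h1 := (lipschitz_infDist_pt (range bd)).dist_le_mul q p
    rwa [NNReal.coe_one, one_mul] at h1
  have key := vol_profile (profile_min hρ.le) hd S lip hno (by rw [hb]; exact h1) (fun x y => by
    rw [hb]
    simp only [infDist_zero_of_mem (mem_range_self _), sub_zero]
    exact (min_le_right _ _).trans (by linarith)) (by
    rw [mu_min hρ.le hρ' hd]
    exact mu_min_pos hρ hρ')
  rwa [mu_min hρ.le hρ' hd] at key

end Pool.Agent.Results.MP_aeade1_gt.LocallyNonshortcutting
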